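import Mathlib

set_option autoImplicit false

namespace Pool.Agent.Work.MP_f3c9f4_co

/-- A symmetric vertex-pair colouring that is proper at every vertex gives a proper colouring of the
line graph. -/
theorem lineGraph_colorable_of_pairs {X C : Type*} [Fintype C] (H : SimpleGraph X) (col : X → X → C)
    (hs : ∀ p q, H.Adj p q → col p q = col q p)
    (hp : ∀ v p q, H.Adj v p → H.Adj v q → p ≠ q → col v p ≠ col v q) :
    H.lineGraph.Colorable (Fintype.card C) := by
  classical
  have key : ∀ e : H.edgeSet, ∃ c : C, ∀ p q, (e : Sym2 X) = s(p, q) → col p q = c := by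
    rintro ⟨e, he⟩
    induction e using Sym2.ind with
    | _ a b =>
      refine ⟨col a b, ?_⟩
      intro p q hpq
      have hpq' : s(a, b) = s(p, q) := hpq
      rw [Sym2.eq_iff] at hpq'
      rcases hpq' with ⟨rfl, rfl⟩ | ⟨rfl, rfl⟩
      · rfl
      · exact (hs _ _ (by simpa using he)).symm
  choose f hf using key
  have : H.lineGraph.Coloring C := by
    refine SimpleGraph.Coloring.mk f ?_
    intro e1 e2 hadj heq
    rw [SimpleGraph.lineGraph_adj_iff_exists] at hadj
    obtain ⟨hne, v, hv1, hv2⟩ := hadj
    obtain ⟨p, hp1⟩ := Sym2.mem_iff_exists.mp hv1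
    obtain ⟨q, hq1⟩ := Sym2.mem_iff_exists.mp hv2
    have h1 := hf e1 v p hp1
    have h2 := hf e2 v q hq1
    have a1 : H.Adj v p := by
      have := e1.2
      rw [hp1] at this
      simpa using this
    have a2 : H.Adj v q := by
      have := e2.2
      rw [hq1] at this
      simpa using this
    have hpq : p ≠ q := by
      rintro rfl
      exact hne (Subtype.ext (hp1.trans hq1.symm))
    exact hp v p q a1 a2 hpq (by rw [h1, h2, heq])
  exact this.colorable

/-- Position of a vertex on an odd cycle `C` whose third edges have class `k`: `z0` misses colour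
`k+1`, `z1` misses colour `k+2`, the edge `z0 z1` is the uncoloured one; `o sI sJ` is any other
vertex, `sI`: its `k+1`-edge goes to `z1`, `sJ`: its `k+2`-edge goes to `z0`. -/
inductive Tag where
  | z0 : Tag
  | z1 : Tag
  | o : Bool → Bool → Tag
deriving DecidableEq, Fintype

def Tag.sI : Tag → Bool
  | .z0 => false
  | .z1 => true
  | .o a _ => a

def Tag.sJ : Tag → Bool
  | .z0 => true
  | .z1 => false
  | .o _ b => b

/-- Local type of a vertex: `none` if it is on none of the odd cycles, otherwise the third class and
the position. -/
abbrev LT := Option (Fin 3 × Tag)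

/-- Edge classes present at a vertex of the given type (`none` = uncoloured edge). -/
def present (t : LT) (c : Option (Fin 3)) : Bool :=
  match t with
  | none => c.isSome
  | some (k, .z0) => c != some (k + 1)
  | some (k, .z1) => c != some (k + 2)
  | some (_, .o _ _) => c.isSome

/-- The class `c` is a cycle class at this vertex. -/
def cyc (t : LT) (c : Option (Fin 3)) : Bool :=
  match t with
  | none => false
  | some (k, _) => c != some k

/-- Colours: `(false, c)` own colour, `(true, c)` colour of the other factor. -/
abbrev Col := Bool × Fin 3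

def sw (x : Col) : Col := (!x.1, x.2)

/-- The colour that edges of class `c'` of the other factor get in the row of a vertex of type `t`. -/
def MM (t : LT) (c' : Fin 3) : Col :=
  match t with
  | none => (true, c')
  | some (k, g) =>
    if c' = 0 then
      (if g = .z0 then (false, k + 1) else if g = .z1 then (false, k + 2) else (true, 0))
    else if c' = 1 then
      (if g.sI then (if g = .z1 then (false, k + 1) else (false, k + 2)) else (true, 1))
    else
      (if g.sJ then (if g = .z0 then (false, k + 2) else (false, k + 1)) else (true, 2))

/-- Colour of the cycle edges in an ordinary column. -/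
def Phi (k : Fin 3) (g : Tag) (c : Option (Fin 3)) : Col :=
  if c = none then (true, 0)
  else if c = some (k + 1) then (if g.sI then (true, 1) else (false, k + 2))
  else (if g.sJ then (true, 2) else (false, k + 1))

/-- Colour of the cycle edges in a column lying on a cycle with third class `k'`. -/
def phi (k : Fin 3) (g : Tag) (k' : Fin 3) (c : Option (Fin 3)) : Col :=
  if k' = 0 then
    match c with
    | none => (true, 0)
    | some c => (false, c)
  else if k' = 1 then
    if c = none then (false, k + 2)
    else if c = some (k + 1) then (if g.sI then (true, 1) else (false, k + 2))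
    else (false, k + 1)
  else
    if c = none then (false, k + 1)
    else if c = some (k + 1) then (false, k + 2)
    else (if g.sJ then (true, 2) else (false, k + 1))

/-- Colour of an edge of class `c` at a vertex of type `t` in a column of type `t'`. -/
def colF (t : LT) (c : Option (Fin 3)) (t' : LT) : Col :=
  if cyc t c then
    match t, t' with
    | some (k, g), some (k', _) => phi k g k' c
    | some (k, g), none => Phi k g c
    | none, _ => (false, 0)
  else
    match c with
    | none => (false, 0)
    | some c => sw (MM t' c)

/-- Compatibility of the types of the two ends of an edge of class `c`. -/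
def compat (c : Option (Fin 3)) (t u : LT) : Bool :=
  (!cyc t c && !cyc u c) ||
    match t, u with
    | some (k, g), some (k', g') =>
      k == k' && (c != some (k + 1) || g.sI == g'.sI) && (c != some (k + 2) || g.sJ == g'.sJ)
    | _, _ => false

set_option maxRecDepth 100000 in
theorem colF_ne : ∀ (t t' : LT) (c c' : Option (Fin 3)), present t c →
    present t c' → c ≠ c' → colF t c t' ≠ colF t c' t' := by
  decide +kernel

set_option maxRecDepth 100000 in
theorem colF_ne_sw : ∀ (t t' : LT) (c c' : Option (Fin 3)), present t c →
    present t' c' → colF t c t' ≠ sw (colF t' c' t) := by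
  decide +kernel

set_option maxRecDepth 100000 in
theorem colF_compat : ∀ (c : Option (Fin 3)) (t u : LT), compat c t u → ∀ t' : LT,
    colF t c t' = colF u c t' := by
  decide +kernel

/-- The structure carried by a cubic graph. -/
structure Str {V : Type*} (F : SimpleGraph V) where
  cls : V → V → Option (Fin 3)
  lt : V → LT
  cls_symm : ∀ a b, F.Adj a b → cls a b = cls b a
  cls_inj : ∀ a b b', F.Adj a b → F.Adj a b' → cls a b = cls a b' → b = b'
  has : ∀ a b, F.Adj a b → present (lt a) (cls a b)
  comp : ∀ a b, F.Adj a b → compat (cls a b) (lt a) (lt b)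

theorem sw_inj : ∀ x y : Col, sw x = sw y → x = y := by decide

theorem colorable_of_str {V W : Type*} {F : SimpleGraph V} {G : SimpleGraph W}
    (S : Str F) (T : Str G) : (SimpleGraph.boxProd F G).lineGraph.Colorable 6 := by
  classical
  have h6 : Fintype.card Col = 6 := by decide
  rw [← h6]
  let col : V × W → V × W → Col := fun p q =>
    if p.2 = q.2 then colF (S.lt p.1) (S.cls p.1 q.1) (T.lt p.2)
    else sw (colF (T.lt p.2) (T.cls p.2 q.2) (S.lt p.1))
  apply lineGraph_colorable_of_pairs _ col
  · rintro ⟨a, x⟩ ⟨b, y⟩ h
    rw [SimpleGraph.boxProd_adj] at h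
    rcases h with ⟨hab, hxy⟩ | ⟨hxy, hab⟩
    · simp only at hab hxy
      subst hxy
      simp only [col, if_true]
      rw [S.cls_symm b a hab.symm]
      exact colF_compat _ _ _ (S.comp a b hab) _
    · simp only at hab hxy
      subst hab
      simp only [col, if_neg hxy.ne, if_neg hxy.ne.symm]
      rw [T.cls_symm y x hxy.symm]
      rw [colF_compat _ _ _ (T.comp x y hxy)]
  · rintro ⟨a, x⟩ ⟨b, y⟩ ⟨c, z⟩ h1 h2 hne
    rw [SimpleGraph.boxProd_adj] at h1 h2
    rcases h1 with ⟨hab, hxy⟩ | ⟨hxy, hab⟩ <;> rcases h2 with ⟨hac, hxz⟩ | ⟨hxz, hac⟩ <;>
      simp only at hab hxy hac hxz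
    · subst hxy; subst hxz
      simp only [col, if_true]
      apply colF_ne _ _ _ _ (S.has a b hab) (S.has a c hac)
      intro h
      exact hne (by rw [S.cls_inj a b c hab hac h])
    · subst hxy; subst hac
      simp only [col, if_true, if_neg hxz.ne]
      exact colF_ne_sw _ _ _ _ (S.has a b hab) (T.has x z hxz)
    · subst hab; subst hxz
      simp only [col, if_true, if_neg hxy.ne]
      exact (colF_ne_sw _ _ _ _ (S.has a c hac) (T.has x y hxy)).symm
    · subst hab; subst hac
      simp only [col, if_neg hxy.ne, if_neg hxz.ne]
      intro h
      have h' := sw_inj _ _ h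
      revert h'
      apply colF_ne _ _ _ _ (T.has x y hxy) (T.has x z hxz)
      intro h
      exact hne (by rw [T.cls_inj x y z hxy hxz h])

end Pool.Agent.Work.MP_f3c9f4_co
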