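import Pool.Agent.Work.MP_f3c9f4_co.Structure
import Pool.Agent.Work.MP_f3c9f4_co.Colour

set_option autoImplicit false

namespace Pool.Agent.Work.MP_f3c9f4_co

open PC

variable {V : Type*} [Fintype V] [DecidableEq V] {F : SimpleGraph V}

/-- The class of an edge. -/
def clsOf (σ : PC F) (a b : V) : Option (Fin 3) :=
  if σ.s 0 a = b then some 0 else if σ.s 1 a = b then some 1 else if σ.s 2 a = b then some 2
  else none

omit [Fintype V] in
theorem clsOf_some (σ : PC F) {a b : V} (hab : F.Adj a b) (c : Fin 3) :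
    clsOf σ a b = some c ↔ σ.s c a = b := by
  have hne := hab.ne
  have uniq : ∀ c c', σ.s c a = b → σ.s c' a = b → c = c' := by
    intro c c' h h'
    by_contra hcc
    exact σ.dj c c' a hcc (by rw [h]; exact hne.symm) (by rw [h, h'])
  constructor
  · intro h
    unfold clsOf at h
    split_ifs at h with h0 h1 h2
    · simp only [Option.some.injEq] at h; rw [← h]; exact h0
    · simp only [Option.some.injEq] at h; rw [← h]; exact h1
    · simp only [Option.some.injEq] at h; rw [← h]; exact h2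
  · intro h
    unfold clsOf
    split_ifs with h0 h1 h2
    · rw [uniq _ _ h h0]
    · rw [uniq _ _ h h1]
    · rw [uniq _ _ h h2]
    · exfalso
      fin_cases c
      · exact h0 h
      · exact h1 h
      · exact h2 h

omit [Fintype V] in
theorem clsOf_none (σ : PC F) {a b : V} (hab : F.Adj a b) :
    clsOf σ a b = none ↔ σ.Unc a b := by
  constructor
  · intro h
    refine ⟨hab, fun c hc => ?_⟩
    rw [← clsOf_some σ hab c, h] at hc
    cases hc
  · intro h
    cases hc : clsOf σ a b with
    | none => rfl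
    | some c => exact absurd ((clsOf_some σ hab c).mp hc) (h.2 c)

omit [Fintype V] in
theorem clsOf_symm (σ : PC F) {a b : V} (hab : F.Adj a b) : clsOf σ a b = clsOf σ b a := by
  cases hc : clsOf σ a b with
  | none =>
    rw [clsOf_none σ hab] at hc
    exact ((clsOf_none σ hab.symm).mpr hc.symm).symm
  | some c =>
    rw [clsOf_some σ hab] at hc
    symm
    rw [clsOf_some σ hab.symm, ← hc, σ.inv]

/-- `z0 z1` is an uncoloured edge with third colour `k`, `z0` missing `k+1`, `z1` missing `k+2`. -/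
def Base (σ : PC F) (k : Fin 3) (z0 z1 : V) : Prop :=
  σ.Unc z0 z1 ∧ σ.s (k + 1) z0 = z0 ∧ σ.s (k + 2) z1 = z1

/-- `a` lies on the chain of `z0 z1`. -/
def On (σ : PC F) (k : Fin 3) (z0 z1 a : V) : Prop :=
  Base σ k z0 z1 ∧ Tcl σ (k + 1) (k + 2) z0 z1 a

theorem on_unique (hF : Cubic F) {σ : PC F} (hσ : σ.IsMin) {k k' : Fin 3} {z0 z1 z0' z1' a : V}
    (h : On σ k z0 z1 a) (h' : On σ k' z0' z1' a) : k = k' ∧ z0 = z0' ∧ z1 = z1' := by
  obtain ⟨⟨h1, h2, h3⟩, h4⟩ := h
  obtain ⟨⟨h1', h2', h3'⟩, h4'⟩ := h'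
  have kk : ∀ k k' : Fin 3, k + 1 = k' + 1 → k = k' := by decide
  have kk' : ∀ k k' : Fin 3, k + 1 = k' + 2 → k + 2 = k' + 1 → False := by decide
  by_cases c1 : z0' = z0 ∧ z1' = z1
  · obtain ⟨rfl, rfl⟩ := c1
    exact ⟨kk _ _ (miss_unique hF hσ h2 h2'), rfl, rfl⟩
  by_cases c2 : z0' = z1 ∧ z1' = z0
  · obtain ⟨rfl, rfl⟩ := c2
    exact (kk' _ _ (miss_unique hF hσ h2 h3') (miss_unique hF hσ h3 h2')).elim
  exact absurd h4' (chains_disjoint hF hσ h1 h2 h3 h1' h2' h3' c1 c2 h4)

theorem exists_on_of_unc (hF : Cubic F) {σ : PC F} (hσ : σ.IsMin) {a b : V} (h : σ.Unc a b) :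
    ∃ k z0 z1, On σ k z0 z1 a ∧ ((a = z0 ∧ b = z1) ∨ (a = z1 ∧ b = z0)) := by
  obtain ⟨α, hα⟩ := exists_miss_of_unc hF σ h
  obtain ⟨β, hβ⟩ := exists_miss_of_unc hF σ h.symm
  have hne : α ≠ β := by rintro rfl; exact add hσ h hα hβ
  have kk : ∀ α β : Fin 3, α ≠ β → ∃ k : Fin 3, (α = k + 1 ∧ β = k + 2) ∨ (α = k + 2 ∧ β = k + 1) := by
    decide
  obtain ⟨k, ⟨rfl, rfl⟩ | ⟨rfl, rfl⟩⟩ := kk α β hne
  · exact ⟨k, a, b, ⟨⟨h, hα, hβ⟩, Tcl.left _ _ _ _ _⟩, Or.inl ⟨rfl, rfl⟩⟩
  · exact ⟨k, b, a, ⟨⟨h.symm, hβ, hα⟩, Tcl.right _ _ _ _ _⟩, Or.inr ⟨rfl, rfl⟩⟩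

open Classical in
/-- The tag of a vertex on the chain of `z0 z1`. -/
noncomputable def tagOf (σ : PC F) (k : Fin 3) (z0 z1 a : V) : Tag :=
  if a = z0 then .z0 else if a = z1 then .z1
  else .o (decide (σ.s (k + 1) a = z1)) (decide (σ.s (k + 2) a = z0))

open Classical in
/-- The local type of a vertex. -/
noncomputable def ltOf (σ : PC F) (a : V) : LT :=
  if h : ∃ p : Fin 3 × V × V, On σ p.1 p.2.1 p.2.2 a then
    some (h.choose.1, tagOf σ h.choose.1 h.choose.2.1 h.choose.2.2 a)
  else none

theorem ltOf_on (hF : Cubic F) {σ : PC F} (hσ : σ.IsMin) {k : Fin 3} {z0 z1 a : V}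
    (h : On σ k z0 z1 a) : ltOf σ a = some (k, tagOf σ k z0 z1 a) := by
  have hex : ∃ p : Fin 3 × V × V, On σ p.1 p.2.1 p.2.2 a := ⟨(k, z0, z1), h⟩
  unfold ltOf
  rw [dif_pos hex]
  have hs := hex.choose_spec
  generalize hex.choose = p at hs ⊢
  obtain ⟨e1, e2, e3⟩ := on_unique hF hσ h hs
  rw [← e1, ← e2, ← e3]

theorem ltOf_off {σ : PC F} {a : V} (h : ¬ ∃ k z0 z1, On σ k z0 z1 a) : ltOf σ a = none := by
  unfold ltOf
  rw [dif_neg]
  rintro ⟨p, hp⟩
  exact h ⟨_, _, _, hp⟩

theorem exists_str (hF : Cubic F) : Nonempty (Str F) := by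
  classical
  obtain ⟨σ, hσ⟩ := exists_isMin F
  have fin3 : ∀ k c : Fin 3, c = k ∨ c = k + 1 ∨ c = k + 2 := by decide
  -- neighbours through cycle classes stay on the chain
  have stay : ∀ {k : Fin 3} {z0 z1 a b : V}, On σ k z0 z1 a → F.Adj a b →
      clsOf σ a b ≠ some k → On σ k z0 z1 b := by
    intro k z0 z1 a b hon hab hc
    refine ⟨hon.1, ?_⟩
    cases hcl : clsOf σ a b with
    | none =>
      rw [clsOf_none σ hab] at hcl
      rcases no_touch hF hσ hon.1.1 hon.1.2.1 hon.1.2.2 hon.2 hcl with ⟨_, rfl⟩ | ⟨_, rfl⟩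
      · exact Tcl.right _ _ _ _ _
      · exact Tcl.left _ _ _ _ _
    | some c =>
      have hc' := (clsOf_some σ hab c).mp hcl
      rcases fin3 k c with rfl | rfl | rfl
      · exact absurd hcl hc
      · rw [← hc']; exact hon.2.si
      · rw [← hc']; exact hon.2.sj
  refine ⟨⟨clsOf σ, ltOf σ, fun a b hab => clsOf_symm σ hab, ?_, ?_, ?_⟩⟩
  · intro a b b' hab hab' h
    cases hc : clsOf σ a b with
    | none =>
      have h1 := (clsOf_none σ hab).mp hc
      rw [h] at hc
      exact unc_unique hF hσ h1 ((clsOf_none σ hab').mp hc)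
    | some c =>
      have h1 := (clsOf_some σ hab c).mp hc
      rw [h] at hc
      rw [← h1, ← (clsOf_some σ hab' c).mp hc]
  · intro a b hab
    by_cases hon : ∃ k z0 z1, On σ k z0 z1 a
    · obtain ⟨k, z0, z1, hon⟩ := hon
      rw [ltOf_on hF hσ hon]
      unfold tagOf
      have hz : z0 ≠ z1 := hon.1.1.ne
      split_ifs with h0 h1
      · subst h0
        simp only [present, bne_iff_ne, ne_eq]
        intro hc
        rw [clsOf_some σ hab, hon.1.2.1] at hc
        exact hab.ne hc
      · subst h1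
        simp only [present, bne_iff_ne, ne_eq]
        intro hc
        rw [clsOf_some σ hab, hon.1.2.2] at hc
        exact hab.ne hc
      · simp only [present]
        cases hc : clsOf σ a b with
        | some c => rfl
        | none =>
          exfalso
          rw [clsOf_none σ hab] at hc
          rcases no_touch hF hσ hon.1.1 hon.1.2.1 hon.1.2.2 hon.2 hc with ⟨h, _⟩ | ⟨h, _⟩
          · exact h0 h
          · exact h1 h
    · rw [ltOf_off hon]
      simp only [present]
      cases hc : clsOf σ a b with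
      | some c => rfl
      | none =>
        exfalso
        rw [clsOf_none σ hab] at hc
        obtain ⟨k, z0, z1, h, _⟩ := exists_on_of_unc hF hσ hc
        exact hon ⟨k, z0, z1, h⟩
  · have sI_iff : ∀ {k : Fin 3} {z0 z1 a : V}, On σ k z0 z1 a →
        ((tagOf σ k z0 z1 a).sI = true ↔ (a = z1 ∨ σ.s (k + 1) a = z1)) := by
      intro k z0 z1 a hon
      have hz : z0 ≠ z1 := hon.1.1.ne
      unfold tagOf
      split_ifs with h0 h1
      · subst h0
        simp only [Tag.sI, Bool.false_eq_true, false_iff, not_or]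
        exact ⟨hz, by rw [hon.1.2.1]; exact hz⟩
      · subst h1
        simp [Tag.sI]
      · simp [Tag.sI, h1]
    have sJ_iff : ∀ {k : Fin 3} {z0 z1 a : V}, On σ k z0 z1 a →
        ((tagOf σ k z0 z1 a).sJ = true ↔ (a = z0 ∨ σ.s (k + 2) a = z0)) := by
      intro k z0 z1 a hon
      have hz : z0 ≠ z1 := hon.1.1.ne
      unfold tagOf
      split_ifs with h0 h1
      · subst h0
        simp [Tag.sJ]
      · subst h1
        simp only [Tag.sJ, Bool.false_eq_true, false_iff, not_or]
        exact ⟨hz.symm, by rw [hon.1.2.2]; exact hz.symm⟩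
      · simp [Tag.sJ, h0]
    -- if the class is a cycle class at `a`, then the second alternative holds
    have main : ∀ {k : Fin 3} {z0 z1 a b : V}, On σ k z0 z1 a → F.Adj a b →
        clsOf σ a b ≠ some k → compat (clsOf σ a b) (ltOf σ a) (ltOf σ b) = true := by
      intro k z0 z1 a b hon hab hc
      have honb := stay hon hab hc
      rw [ltOf_on hF hσ hon, ltOf_on hF hσ honb]
      simp only [compat, Bool.or_eq_true, Bool.and_eq_true, beq_iff_eq]
      right
      refine ⟨⟨trivial, ?_⟩, ?_⟩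
      · by_cases h : clsOf σ a b = some (k + 1)
        · right
          have hs := (clsOf_some σ hab _).mp h
          have hs' : σ.s (k + 1) b = a := by rw [← hs, σ.inv]
          rw [Bool.eq_iff_iff, sI_iff hon, sI_iff honb, hs, hs']
          exact or_comm
        · left; simpa using h
      · by_cases h : clsOf σ a b = some (k + 2)
        · right
          have hs := (clsOf_some σ hab _).mp h
          have hs' : σ.s (k + 2) b = a := by rw [← hs, σ.inv]
          rw [Bool.eq_iff_iff, sJ_iff hon, sJ_iff honb, hs, hs']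
          exact or_comm
        · left; simpa using h
    intro a b hab
    by_cases ha : cyc (ltOf σ a) (clsOf σ a b) = true
    · by_cases hon : ∃ k z0 z1, On σ k z0 z1 a
      · obtain ⟨k, z0, z1, hon⟩ := hon
        apply main hon hab
        rw [ltOf_on hF hσ hon] at ha
        simpa [cyc] using ha
      · rw [ltOf_off hon] at ha
        simp [cyc] at ha
    · have hb : ¬ cyc (ltOf σ b) (clsOf σ a b) = true := by
        intro hb
        apply ha
        by_cases hon : ∃ k z0 z1, On σ k z0 z1 b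
        · obtain ⟨k, z0, z1, hon⟩ := hon
          rw [ltOf_on hF hσ hon] at hb
          have hc : clsOf σ b a ≠ some k := by
            rw [← clsOf_symm σ hab]; simpa [cyc] using hb
          have hona := stay hon hab.symm hc
          rw [ltOf_on hF hσ hona]
          rw [← clsOf_symm σ hab] at hc
          simpa [cyc] using hc
        · rw [ltOf_off hon] at hb
          simp [cyc] at hb
      have ha' : cyc (ltOf σ a) (clsOf σ a b) = false := by simpa using ha
      have hb' : cyc (ltOf σ b) (clsOf σ a b) = false := by simpa using hb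
      simp [compat, ha', hb']

/-- The Cartesian product of two finite cubic graphs has a proper edge colouring with six colours. -/
theorem boxProd_colorable {W : Type*} [Fintype W] [DecidableEq W] {G : SimpleGraph W}
    (hF : Cubic F) (hG : Cubic G) : (SimpleGraph.boxProd F G).lineGraph.Colorable 6 := by
  obtain ⟨S⟩ := exists_str hF
  obtain ⟨T⟩ := exists_str hG
  exact colorable_of_str S T

end Pool.Agent.Work.MP_f3c9f4_co
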