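import Mathlib

set_option autoImplicit false

namespace Pool.Agent.Work.MP_f3c9f4_co

/-- A proper colouring of some of the edges with three colours, given by three involutions. -/
structure PC {V : Type*} (F : SimpleGraph V) where
  s : Fin 3 → V → V
  inv : ∀ c a, s c (s c a) = a
  adj : ∀ c a, s c a ≠ a → F.Adj a (s c a)
  dj : ∀ c c' a, c ≠ c' → s c a ≠ a → s c a ≠ s c' a

namespace PC

variable {V : Type*} [Fintype V] [DecidableEq V] {F : SimpleGraph V}

/-- Uncoloured edge. -/
def Unc (σ : PC F) (a b : V) : Prop := F.Adj a b ∧ ∀ c, σ.s c a ≠ b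

omit [Fintype V] [DecidableEq V] in
theorem Unc.symm {σ : PC F} {a b : V} (h : σ.Unc a b) : σ.Unc b a := by
  refine ⟨h.1.symm, fun c hc => h.2 c ?_⟩
  rw [← hc, σ.inv]

omit [Fintype V] [DecidableEq V] in
theorem Unc.ne {σ : PC F} {a b : V} (h : σ.Unc a b) : a ≠ b := h.1.ne

/-- The set of missing pairs. -/
def miss (σ : PC F) : Finset (Fin 3 × V) := Finset.univ.filter (fun p => σ.s p.1 p.2 = p.2)

/-- Minimality: as few missing pairs as possible. -/
def IsMin (σ : PC F) : Prop := ∀ τ : PC F, σ.miss.card ≤ τ.miss.card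

theorem exists_isMin (F : SimpleGraph V) : ∃ σ : PC F, σ.IsMin := by
  classical
  have h0 : ∃ n, ∃ σ : PC F, σ.miss.card = n :=
    ⟨_, ⟨fun _ a => a, fun _ _ => rfl, fun _ _ h => absurd rfl h, fun _ _ _ _ h => absurd rfl h⟩, rfl⟩
  obtain ⟨σ, hσ⟩ := Nat.find_spec h0
  refine ⟨σ, fun τ => ?_⟩
  rw [hσ]
  exact Nat.find_min' h0 ⟨τ, rfl⟩

/-- Adding a colour to an uncoloured edge. -/
theorem add {σ : PC F} (hσ : σ.IsMin) {a b : V} (h : σ.Unc a b) {c : Fin 3}
    (ha : σ.s c a = a) (hb : σ.s c b = b) : False := by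
  have hab : a ≠ b := h.ne
  let f : Fin 3 → V → V := fun c' x =>
    if c' = c ∧ x = a then b else if c' = c ∧ x = b then a else σ.s c' x
  have f1 : f c a = b := by simp [f]
  have f2 : f c b = a := by simp [f, hab.symm]
  have f3 : ∀ c' x, c' ≠ c → f c' x = σ.s c' x := by
    intro c' x hc; simp [f, hc]
  have f4 : ∀ c' x, x ≠ a → x ≠ b → f c' x = σ.s c' x := by
    intro c' x h1 h2; simp [f, h1, h2]
  have key : ∀ c' x, c' ≠ c ∨ (x ≠ a ∧ x ≠ b) → f c' x = σ.s c' x := by
    rintro c' x (h | ⟨h1, h2⟩)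
    · exact f3 _ _ h
    · exact f4 _ _ h1 h2
  let τ : PC F :=
    { s := f
      inv := by
        intro c' x
        by_cases hc : c' = c
        · subst hc
          by_cases hxa : x = a
          · subst hxa; rw [f1, f2]
          by_cases hxb : x = b
          · subst hxb; rw [f2, f1]
          rw [f4 _ _ hxa hxb, f4, σ.inv]
          · intro h'; apply hxa; rw [← σ.inv c' x, h', ha]
          · intro h'; apply hxb; rw [← σ.inv c' x, h', hb]
        · rw [f3 _ _ hc, f3 _ _ hc, σ.inv]
      adj := by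
        intro c' x hx
        by_cases hc : c' = c
        · subst hc
          by_cases hxa : x = a
          · subst hxa; rw [f1]; exact h.1
          by_cases hxb : x = b
          · subst hxb; rw [f2]; exact h.1.symm
          rw [f4 _ _ hxa hxb] at hx ⊢
          exact σ.adj _ _ hx
        · rw [f3 _ _ hc] at hx ⊢
          exact σ.adj _ _ hx
      dj := by
        intro c1 c2 x h12 hx
        by_cases hxa : x = a
        · subst hxa
          by_cases h1 : c1 = c
          · subst h1
            rw [f1, f3 _ _ (Ne.symm h12)]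
            exact (h.2 c2).symm
          · rw [f3 _ _ h1] at hx ⊢
            by_cases h2 : c2 = c
            · subst h2; rw [f1]; exact h.2 c1
            · rw [f3 _ _ h2]; exact σ.dj _ _ _ h12 hx
        by_cases hxb : x = b
        · subst hxb
          by_cases h1 : c1 = c
          · subst h1
            rw [f2, f3 _ _ (Ne.symm h12)]
            exact (h.symm.2 c2).symm
          · rw [f3 _ _ h1] at hx ⊢
            by_cases h2 : c2 = c
            · subst h2; rw [f2]; exact h.symm.2 c1
            · rw [f3 _ _ h2]; exact σ.dj _ _ _ h12 hx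
        rw [f4 _ _ hxa hxb] at hx ⊢
        rw [f4 _ _ hxa hxb]
        exact σ.dj _ _ _ h12 hx }
  have hlt : τ.miss.card < σ.miss.card := by
    apply Finset.card_lt_card
    rw [Finset.ssubset_iff_of_subset]
    · refine ⟨(c, a), by simp [miss, ha], ?_⟩
      simp only [miss, Finset.mem_filter, Finset.mem_univ, true_and]
      change ¬ (f c a = a)
      rw [f1]; exact hab.symm
    · rintro ⟨c', x⟩ hx
      simp only [miss, Finset.mem_filter, Finset.mem_univ, true_and] at hx ⊢
      change f c' x = x at hx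
      by_cases hc : c' = c
      · subst hc
        by_cases hxa : x = a
        · subst hxa; exact ha
        by_cases hxb : x = b
        · subst hxb; exact hb
        rwa [f4 _ _ hxa hxb] at hx
      · rwa [f3 _ _ hc] at hx
  exact absurd (hσ τ) (not_le.mpr hlt)

/-- Kempe swap of the colours `i`, `j` on a closed set. -/
theorem kswap (σ : PC F) (i j : Fin 3) (T : V → Prop)
    (hi : ∀ x, T x → T (σ.s i x)) (hj : ∀ x, T x → T (σ.s j x)) :
    ∃ τ : PC F, τ.miss.card = σ.miss.card ∧
      (∀ c x, T x → τ.s c x = σ.s (Equiv.swap i j c) x) ∧ (∀ c x, ¬ T x → τ.s c x = σ.s c x) := by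
  classical
  let f : Fin 3 → V → V := fun c x => if T x then σ.s (Equiv.swap i j c) x else σ.s c x
  have f1 : ∀ c x, T x → f c x = σ.s (Equiv.swap i j c) x := by
    intro c x h; simp [f, h]
  have f2 : ∀ c x, ¬ T x → f c x = σ.s c x := by
    intro c x h; simp [f, h]
  have hcl : ∀ c x, T x → (c = i ∨ c = j) → T (σ.s c x) := by
    rintro c x h (rfl | rfl)
    · exact hi _ h
    · exact hj _ h
  have hcl' : ∀ c x, ¬ T x → (c = i ∨ c = j) → ¬ T (σ.s c x) := by
    intro c x h hc h'
    apply h
    rw [← σ.inv c x]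
    exact hcl c _ h' hc
  have hsw : ∀ c, c ≠ i → c ≠ j → Equiv.swap i j c = c := fun c h1 h2 =>
    Equiv.swap_apply_of_ne_of_ne h1 h2
  have hsw2 : ∀ c, (c = i ∨ c = j) → (Equiv.swap i j c = i ∨ Equiv.swap i j c = j) := by
    rintro c (rfl | rfl)
    · right; simp
    · left; simp
  have f3 : ∀ c x, c ≠ i → c ≠ j → f c x = σ.s c x := by
    intro c x h1 h2
    by_cases hT : T x
    · rw [f1 _ _ hT, hsw _ h1 h2]
    · exact f2 _ _ hT
  let τ : PC F :=
    { s := f
      inv := by
        intro c x
        by_cases hc : c = i ∨ c = j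
        · by_cases hT : T x
          · rw [f1 _ _ hT, f1 _ _ (hcl _ _ hT (hsw2 _ hc)), σ.inv]
          · rw [f2 _ _ hT, f2 _ _ (hcl' _ _ hT hc), σ.inv]
        · rw [not_or] at hc
          rw [f3 _ _ hc.1 hc.2, f3 _ _ hc.1 hc.2, σ.inv]
      adj := by
        intro c x hx
        by_cases hT : T x
        · rw [f1 _ _ hT] at hx ⊢; exact σ.adj _ _ hx
        · rw [f2 _ _ hT] at hx ⊢; exact σ.adj _ _ hx
      dj := by
        intro c c' x hcc hx
        by_cases hT : T x
        · rw [f1 _ _ hT] at hx ⊢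
          rw [f1 _ _ hT]
          exact σ.dj _ _ _ (fun h => hcc ((Equiv.swap i j).injective h)) hx
        · rw [f2 _ _ hT] at hx ⊢
          rw [f2 _ _ hT]
          exact σ.dj _ _ _ hcc hx }
  refine ⟨τ, ?_, f1, f2⟩
  apply Finset.card_bij (fun p _ => ((if T p.2 then Equiv.swap i j p.1 else p.1), p.2))
  · rintro ⟨c, x⟩ h
    simp only [miss, Finset.mem_filter, Finset.mem_univ, true_and] at h ⊢
    change f c x = x at h
    by_cases hT : T x
    · rw [f1 _ _ hT] at h; simp [hT, h]
    · rw [f2 _ _ hT] at h; simp [hT, h]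
  · rintro ⟨c, x⟩ _ ⟨c', x'⟩ _ h
    simp only [Prod.mk.injEq] at h ⊢
    obtain ⟨h1, rfl⟩ := h
    refine ⟨?_, rfl⟩
    by_cases hT : T x
    · simpa [hT] using h1
    · simpa [hT] using h1
  · rintro ⟨c, x⟩ h
    simp only [miss, Finset.mem_filter, Finset.mem_univ, true_and] at h
    refine ⟨((if T x then Equiv.swap i j c else c), x), ?_, ?_⟩
    · simp only [miss, Finset.mem_filter, Finset.mem_univ, true_and]
      change f _ x = x
      by_cases hT : T x
      · rw [f1 _ _ hT]; simp [hT, h]
      · rw [f2 _ _ hT]; simp [hT, h]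
    · by_cases hT : T x
      · simp [hT]
      · simp [hT]

/-- `τ` is obtained from `σ` by colouring the edge `p q` with `s` and uncolouring `q (σ.s s q)`. -/
def IsShift (σ : PC F) (p q : V) (s : Fin 3) (τ : PC F) : Prop :=
  (∀ c x, c ≠ s → τ.s c x = σ.s c x) ∧ τ.s s p = q ∧ τ.s s q = p ∧
    τ.s s (σ.s s q) = σ.s s q ∧ (∀ x, x ≠ p → x ≠ q → x ≠ σ.s s q → τ.s s x = σ.s s x)

theorem exists_shift (σ : PC F) {p q : V} (h : σ.Unc p q) {s : Fin 3} (hp : σ.s s p = p)
    (hq : σ.s s q ≠ q) : ∃ τ : PC F, τ.miss.card = σ.miss.card ∧ IsShift σ p q s τ := by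
  classical
  have hpq : p ≠ q := h.ne
  set z := σ.s s q with hz
  have hzq : σ.s s z = q := by rw [hz, σ.inv]
  have hzp : z ≠ p := by
    intro h'
    rw [h', hp] at hzq
    exact hpq hzq
  let f : Fin 3 → V → V := fun c x =>
    if c = s then (if x = p then q else if x = q then p else if x = z then z else σ.s c x)
    else σ.s c x
  have g0 : ∀ c x, c ≠ s → f c x = σ.s c x := by intro c x hc; simp [f, hc]
  have g1 : f s p = q := by simp [f]
  have g2 : f s q = p := by simp [f, hpq.symm]
  have g3 : f s z = z := by simp [f, hzp, hq]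
  have g4 : ∀ x, x ≠ p → x ≠ q → x ≠ z → f s x = σ.s s x := by
    intro x h1 h2 h3; simp [f, h1, h2, h3]
  let τ : PC F :=
    { s := f
      inv := by
        intro c x
        by_cases hc : c = s
        · subst hc
          by_cases hxp : x = p
          · subst hxp; rw [g1, g2]
          by_cases hxq : x = q
          · subst hxq; rw [g2, g1]
          by_cases hxz : x = z
          · subst hxz; rw [g3, g3]
          rw [g4 _ hxp hxq hxz, g4, σ.inv]
          · intro h'; apply hxp; rw [← σ.inv c x, h', hp]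
          · intro h'; apply hxz; rw [← σ.inv c x, h']
          · intro h'; apply hxq; rw [← σ.inv c x, h', hzq]
        · rw [g0 _ _ hc, g0 _ _ hc, σ.inv]
      adj := by
        intro c x hx
        by_cases hc : c = s
        · subst hc
          by_cases hxp : x = p
          · subst hxp; rw [g1]; exact h.1
          by_cases hxq : x = q
          · subst hxq; rw [g2]; exact h.1.symm
          by_cases hxz : x = z
          · subst hxz; exact absurd g3 hx
          rw [g4 _ hxp hxq hxz] at hx ⊢
          exact σ.adj _ _ hx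
        · rw [g0 _ _ hc] at hx ⊢
          exact σ.adj _ _ hx
      dj := by
        intro c1 c2 x h12 hx
        by_cases h1 : c1 = s
        · subst h1
          rw [g0 c2 _ (Ne.symm h12)]
          by_cases hxp : x = p
          · subst hxp; rw [g1]; exact (h.2 c2).symm
          by_cases hxq : x = q
          · subst hxq; rw [g2]; exact (h.symm.2 c2).symm
          by_cases hxz : x = z
          · subst hxz; exact absurd g3 hx
          rw [g4 _ hxp hxq hxz] at hx ⊢
          exact σ.dj _ _ _ h12 hx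
        · rw [g0 _ _ h1] at hx ⊢
          by_cases h2 : c2 = s
          · subst h2
            by_cases hxp : x = p
            · subst hxp; rw [g1]; exact h.2 c1
            by_cases hxq : x = q
            · subst hxq; rw [g2]; exact h.symm.2 c1
            by_cases hxz : x = z
            · subst hxz; rw [g3]; exact hx
            rw [g4 _ hxp hxq hxz]
            exact σ.dj _ _ _ h12 hx
          · rw [g0 _ _ h2]
            exact σ.dj _ _ _ h12 hx }
  refine ⟨τ, ?_, g0, g1, g2, g3, g4⟩
  have hmiss : τ.miss = insert (s, z) (σ.miss.erase (s, p)) := by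
    ext ⟨c, x⟩
    simp only [miss, Finset.mem_filter, Finset.mem_univ, true_and, Finset.mem_insert,
      Finset.mem_erase, Prod.mk.injEq, ne_eq, not_and]
    change f c x = x ↔ _
    by_cases hc : c = s
    · subst hc
      by_cases hxp : x = p
      · subst hxp
        rw [g1]
        constructor
        · intro h'; exact absurd h' hpq.symm
        · rintro (⟨_, h'⟩ | ⟨h', _⟩)
          · exact absurd h'.symm hzp
          · exact absurd rfl (h' rfl)
      by_cases hxq : x = q
      · subst hxq
        rw [g2]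
        constructor
        · intro h'; exact absurd h' hpq
        · rintro (⟨_, h'⟩ | ⟨_, h'⟩)
          · exact absurd h'.symm hq
          · exact absurd h' hq
      by_cases hxz : x = z
      · subst hxz
        simp [g3]
      rw [g4 _ hxp hxq hxz]
      simp [hxz, hxp]
    · rw [g0 _ _ hc]
      simp [hc]
  have hnot : (s, z) ∉ σ.miss.erase (s, p) := by
    simp only [miss, Finset.mem_erase, Finset.mem_filter, Finset.mem_univ, true_and, not_and]
    intro _ h'
    rw [hzq] at h'
    exact hq h'.symm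
  rw [hmiss, Finset.card_insert_of_notMem hnot, Finset.card_erase_of_mem]
  · have : 0 < σ.miss.card := by
      apply Finset.card_pos.mpr
      exact ⟨(s, p), by simp [miss, hp]⟩
    omega
  · simp [miss, hp]

/-- Chains have at most two ends. -/
theorem chain_lemma (A B : V → V) (hA : ∀ x, A (A x) = x) (hB : ∀ x, B (B x) = x) (v u1 u2 : V)
    (hv : B v = v)
    (h1 : Relation.ReflTransGen (fun x y => y = A x ∨ y = B x) v u1)
    (h2 : Relation.ReflTransGen (fun x y => y = A x ∨ y = B x) v u2)
    (hu1 : A u1 = u1) (hu2 : A u2 = u2) : u1 = u2 := by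
  let PA : Equiv.Perm V := Function.Involutive.toPerm A hA
  let PB : Equiv.Perm V := Function.Involutive.toPerm B hB
  have eA : ∀ x, PA x = A x := fun _ => rfl
  have eB : ∀ x, PB x = B x := fun _ => rfl
  have hAA : PA * PA = 1 := by ext x; simp [eA, hA]
  have hBB : PB * PB = 1 := by ext x; simp [eB, hB]
  have hAi : PA⁻¹ = PA := by rw [inv_eq_iff_mul_eq_one, hAA]
  have hBi : PB⁻¹ = PB := by rw [inv_eq_iff_mul_eq_one, hBB]
  set τ := PA * PB with hτ
  have hτi : τ⁻¹ = PB * PA := by rw [hτ, mul_inv_rev, hAi, hBi]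
  have cA : ∀ n : ℤ, PA * τ ^ n = τ ^ (-n) * PA := by
    intro n
    have h : PA * τ ^ n * PA⁻¹ = (PA * τ * PA⁻¹) ^ n := by
      rw [conj_zpow]
    have h' : PA * τ * PA⁻¹ = τ⁻¹ := by
      rw [hτi, hτ, hAi, ← mul_assoc, hAA, one_mul]
    rw [h', inv_zpow, ← zpow_neg] at h
    rw [← h]; group
  have cB : ∀ n : ℤ, PB * τ ^ n = τ ^ (-n) * PB := by
    intro n
    have h : PB * τ ^ n * PB⁻¹ = (PB * τ * PB⁻¹) ^ n := by
      rw [conj_zpow]
    have h' : PB * τ * PB⁻¹ = τ⁻¹ := by
      rw [hτi, hτ, hBi, ← mul_assoc, mul_assoc (PB * PA), hBB, mul_one]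
    rw [h', inv_zpow, ← zpow_neg] at h
    rw [← h]; group
  have hAv : A v = τ v := by
    rw [hτ, Equiv.Perm.mul_apply, eB, hv, eA]
  have stepA : ∀ n : ℤ, A ((τ ^ n) v) = (τ ^ (-n + 1)) v := by
    intro n
    have h : (PA * τ ^ n) v = (τ ^ (-n) * PA) v := by rw [cA]
    rw [Equiv.Perm.mul_apply, Equiv.Perm.mul_apply, eA, eA, hAv] at h
    rw [h, zpow_add_one]
    rfl
  have stepB : ∀ n : ℤ, B ((τ ^ n) v) = (τ ^ (-n)) v := by
    intro n
    have h : (PB * τ ^ n) v = (τ ^ (-n) * PB) v := by rw [cB]
    rw [Equiv.Perm.mul_apply, Equiv.Perm.mul_apply, eB, eB, hv] at h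
    exact h
  have orb : ∀ w, Relation.ReflTransGen (fun x y => y = A x ∨ y = B x) v w →
      ∃ n : ℤ, w = (τ ^ n) v := by
    intro w hw
    induction hw with
    | refl => exact ⟨0, by simp⟩
    | tail _ hstep ih =>
      obtain ⟨n, hn⟩ := ih
      rcases hstep with h | h
      · exact ⟨-n + 1, by rw [h, hn, stepA]⟩
      · exact ⟨-n, by rw [h, hn, stepB]⟩
  have fix : ∀ n : ℤ, A ((τ ^ n) v) = (τ ^ n) v → τ ^ (2 * n - 1) ∈ MulAction.stabilizer (Equiv.Perm V) v := by
    intro n hn
    rw [stepA] at hn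
    rw [MulAction.mem_stabilizer_iff, Equiv.Perm.smul_def]
    have : (τ ^ (n - 1)) ((τ ^ (-n + 1)) v) = (τ ^ (n - 1)) ((τ ^ n) v) := by rw [hn]
    rw [← Equiv.Perm.mul_apply, ← Equiv.Perm.mul_apply, ← zpow_add, ← zpow_add] at this
    have e1 : n - 1 + (-n + 1) = 0 := by ring
    have e2 : n - 1 + n = 2 * n - 1 := by ring
    rw [e1, e2] at this
    simpa using this.symm
  obtain ⟨n, hn⟩ := orb u1 h1
  obtain ⟨m, hm⟩ := orb u2 h2
  have s1 := fix n (by rw [← hn]; exact hu1)
  have s2 := fix m (by rw [← hm]; exact hu2)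
  have s3 : τ ^ (n - m) ∈ MulAction.stabilizer (Equiv.Perm V) v := by
    have e : n - m = (2 * n - 1) * m + (2 * m - 1) * (-n) := by ring
    rw [e, zpow_add, zpow_mul, zpow_mul]
    exact mul_mem (zpow_mem s1 m) (zpow_mem s2 (-n))
  rw [MulAction.mem_stabilizer_iff, Equiv.Perm.smul_def] at s3
  rw [hn, hm]
  have : (τ ^ m) ((τ ^ (n - m)) v) = (τ ^ m) v := by rw [s3]
  rw [← Equiv.Perm.mul_apply, ← zpow_add] at this
  have e : m + (n - m) = n := by ring
  rw [e] at this
  exact this

end PC

end Pool.Agent.Work.MP_f3c9f4_co
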