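import Pool.Agent.Work.MP_f3c9f4_co.Kempe

set_option autoImplicit false

namespace Pool.Agent.Work.MP_f3c9f4_co

namespace PC

variable {V : Type*} [Fintype V] [DecidableEq V] {F : SimpleGraph V}

/-- The graph is cubic. -/
def Cubic (F : SimpleGraph V) : Prop := ∀ v : V, (F.neighborSet v).ncard = 3

/-- At every vertex the number of uncoloured edges is the number of missing colours. -/
theorem card_unc (hF : Cubic F) (σ : PC F) (a : V) :
    {b | σ.Unc a b}.ncard = {c | σ.s c a = a}.ncard := by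
  classical
  have h1 : F.neighborSet a = {b | σ.Unc a b} ∪ (fun c => σ.s c a) '' {c | σ.s c a ≠ a} := by
    ext b
    simp only [SimpleGraph.mem_neighborSet, Set.mem_union, Set.mem_ofPred_eq, Set.mem_image]
    constructor
    · intro hab
      by_cases h : ∃ c, σ.s c a = b
      · obtain ⟨c, hc⟩ := h
        right
        exact ⟨c, by rw [hc]; exact hab.ne.symm, hc⟩
      · left
        exact ⟨hab, fun c hc => h ⟨c, hc⟩⟩
    · rintro (h | ⟨c, hc, rfl⟩)
      · exact h.1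
      · exact σ.adj _ _ hc
  have h2 : Disjoint {b | σ.Unc a b} ((fun c => σ.s c a) '' {c | σ.s c a ≠ a}) := by
    rw [Set.disjoint_left]
    rintro b hb ⟨c, _, hc⟩
    exact hb.2 c hc
  have h3 : ((fun c => σ.s c a) '' {c | σ.s c a ≠ a}).ncard = {c | σ.s c a ≠ a}.ncard := by
    apply Set.InjOn.ncard_image
    intro c hc c' _ h
    by_contra hne
    exact σ.dj c c' a hne hc h
  have h4 : {c | σ.s c a = a}.ncard + {c | σ.s c a ≠ a}.ncard = 3 := by
    have : {c : Fin 3 | σ.s c a ≠ a} = {c | σ.s c a = a}ᶜ := by ext; simp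
    rw [this, Set.ncard_add_ncard_compl]
    simp
  have h5 := hF a
  rw [h1, Set.ncard_union_eq h2 (Set.toFinite _) (Set.toFinite _), h3] at h5
  omega

theorem exists_miss_of_unc (hF : Cubic F) (σ : PC F) {a b : V} (h : σ.Unc a b) :
    ∃ c, σ.s c a = a := by
  have h0 := card_unc hF σ a
  have : 0 < {b | σ.Unc a b}.ncard := (Set.ncard_pos (Set.toFinite _)).mpr ⟨b, h⟩
  rw [h0, Set.ncard_pos (Set.toFinite _)] at this
  exact this

theorem exists_unc_of_miss (hF : Cubic F) (σ : PC F) {a : V} {c : Fin 3} (h : σ.s c a = a) :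
    ∃ b, σ.Unc a b := by
  have h0 := card_unc hF σ a
  have : 0 < {c | σ.s c a = a}.ncard := (Set.ncard_pos (Set.toFinite _)).mpr ⟨c, h⟩
  rw [← h0, Set.ncard_pos (Set.toFinite _)] at this
  exact this

theorem two_miss_of_two_unc (hF : Cubic F) (σ : PC F) {a b b' : V} (h : σ.Unc a b)
    (h' : σ.Unc a b') (hne : b ≠ b') : ∃ c c', c ≠ c' ∧ σ.s c a = a ∧ σ.s c' a = a := by
  have h0 := card_unc hF σ a
  have : 1 < {b | σ.Unc a b}.ncard :=
    (Set.one_lt_ncard (Set.toFinite _)).mpr ⟨b, h, b', h', hne⟩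
  rw [h0, Set.one_lt_ncard (Set.toFinite _)] at this
  obtain ⟨c, hc, c', hc', hcc⟩ := this
  exact ⟨c, c', hcc, hc, hc'⟩

theorem two_unc_of_two_miss (hF : Cubic F) (σ : PC F) {a : V} {c c' : Fin 3} (h : σ.s c a = a)
    (h' : σ.s c' a = a) (hne : c ≠ c') : ∃ b b', b ≠ b' ∧ σ.Unc a b ∧ σ.Unc a b' := by
  have h0 := card_unc hF σ a
  have : 1 < {c | σ.s c a = a}.ncard :=
    (Set.one_lt_ncard (Set.toFinite _)).mpr ⟨c, h, c', h', hne⟩
  rw [← h0, Set.one_lt_ncard (Set.toFinite _)] at this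
  obtain ⟨b, hb, b', hb', hbb⟩ := this
  exact ⟨b, b', hbb, hb, hb'⟩

/-- In a minimal colouring the uncoloured edges form a matching. -/
theorem unc_unique (hF : Cubic F) {σ : PC F} (hσ : σ.IsMin) {v u1 u2 : V} (h1 : σ.Unc v u1)
    (h2 : σ.Unc v u2) : u1 = u2 := by
  by_contra hne
  obtain ⟨β, γ, hβγ, hβ, hγ⟩ := two_miss_of_two_unc hF σ h1 h2 hne
  obtain ⟨α, hα⟩ := exists_miss_of_unc hF σ h1.symm
  obtain ⟨α', hα'⟩ := exists_miss_of_unc hF σ h2.symm
  have nb : α ≠ β := by rintro rfl; exact add hσ h1 hβ hα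
  have ng : α ≠ γ := by rintro rfl; exact add hσ h1 hγ hα
  have nb' : α' ≠ β := by rintro rfl; exact add hσ h2 hβ hα'
  have ng' : α' ≠ γ := by rintro rfl; exact add hσ h2 hγ hα'
  have fin3 : ∀ α α' β γ : Fin 3, β ≠ γ → α ≠ β → α ≠ γ → α' ≠ β → α' ≠ γ → α = α' := by decide
  have haa : α = α' := fin3 α α' β γ hβγ nb ng nb' ng'
  subst haa
  let R : V → V → Prop := fun x y => y = σ.s α x ∨ y = σ.s β x
  let T : V → Prop := fun w => Relation.ReflTransGen R v w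
  have Ta : ∀ x, T x → T (σ.s α x) := fun x hx => hx.tail (Or.inl rfl)
  have Tb : ∀ x, T x → T (σ.s β x) := fun x hx => hx.tail (Or.inr rfl)
  obtain ⟨τ, hτ, ht1, ht2⟩ := kswap σ α β T Ta Tb
  have hτmin : τ.IsMin := by intro ρ; rw [hτ]; exact hσ ρ
  have Tv : T v := Relation.ReflTransGen.refl
  have hvτ : τ.s α v = v := by
    rw [ht1 _ _ Tv, Equiv.swap_apply_left, hβ]
  have huncτ : ∀ u, σ.Unc v u → τ.Unc v u := by
    intro u hu
    refine ⟨hu.1, fun c => ?_⟩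
    rw [ht1 _ _ Tv]
    exact hu.2 _
  have hin : ∀ u, σ.Unc v u → σ.s α u = u → T u := by
    intro u hu hau
    by_contra hT
    have : τ.s α u = u := by rw [ht2 _ _ hT, hau]
    exact add hτmin (huncτ u hu) hvτ this
  exact hne (chain_lemma (σ.s α) (σ.s β) (σ.inv α) (σ.inv β) v u1 u2 hβ (hin u1 h1 hα)
    (hin u2 h2 hα') hα hα')

theorem miss_unique (hF : Cubic F) {σ : PC F} (hσ : σ.IsMin) {a : V} {c c' : Fin 3}
    (h : σ.s c a = a) (h' : σ.s c' a = a) : c = c' := by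
  by_contra hne
  obtain ⟨b, b', hbb, hb, hb'⟩ := two_unc_of_two_miss hF σ h h' hne
  exact hbb (unc_unique hF hσ hb hb')

/-- The closure of `{a, b}` under the colours `i` and `j`. -/
def Tcl (σ : PC F) (i j : Fin 3) (a b w : V) : Prop :=
  ∀ P : V → Prop, P a → P b → (∀ x, P x → P (σ.s i x)) → (∀ x, P x → P (σ.s j x)) → P w

omit [Fintype V] [DecidableEq V] in
theorem Tcl.left (σ : PC F) (i j : Fin 3) (a b : V) : Tcl σ i j a b a := fun _ h _ _ _ => h
omit [Fintype V] [DecidableEq V] in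
theorem Tcl.right (σ : PC F) (i j : Fin 3) (a b : V) : Tcl σ i j a b b := fun _ _ h _ _ => h
omit [Fintype V] [DecidableEq V] in
theorem Tcl.si {σ : PC F} {i j : Fin 3} {a b w : V} (h : Tcl σ i j a b w) :
    Tcl σ i j a b (σ.s i w) := fun P h1 h2 h3 h4 => h3 _ (h P h1 h2 h3 h4)
omit [Fintype V] [DecidableEq V] in
theorem Tcl.sj {σ : PC F} {i j : Fin 3} {a b w : V} (h : Tcl σ i j a b w) :
    Tcl σ i j a b (σ.s j w) := fun P h1 h2 h3 h4 => h4 _ (h P h1 h2 h3 h4)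

/-- `τ` with its uncoloured edge `p q` arises from `σ` by rotating the uncoloured edge `a b` along
its chain. -/
structure Inv (σ : PC F) (a b : V) (i j : Fin 3) (τ : PC F) (p q : V) (s t : Fin 3) : Prop where
  min : τ.IsMin
  unc : τ.Unc p q
  hp : τ.s s p = p
  hq : τ.s t q = q
  hst : (s = i ∧ t = j) ∨ (s = j ∧ t = i)
  other : ∀ x y, σ.Unc x y → ¬ (x = a ∧ y = b) → ¬ (x = b ∧ y = a) →
    τ.Unc x y ∧ ¬ (x = p ∧ y = q) ∧ ¬ (x = q ∧ y = p)
  cyc : ∀ x y, x ≠ y → (σ.s i x = y ∨ σ.s j x = y ∨ (x = a ∧ y = b) ∨ (x = b ∧ y = a)) →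
    (τ.s i x = y ∨ τ.s j x = y ∨ (x = p ∧ y = q) ∨ (x = q ∧ y = p))

theorem Inv.base {σ : PC F} {a b : V} {i j : Fin 3} (hσ : σ.IsMin) (h : σ.Unc a b)
    (ha : σ.s i a = a) (hb : σ.s j b = b) : Inv σ a b i j σ a b i j :=
  ⟨hσ, h, ha, hb, Or.inl ⟨rfl, rfl⟩, fun _ _ h1 h2 h3 => ⟨h1, h2, h3⟩, fun _ _ _ h => h⟩

theorem Inv.rev {σ : PC F} {a b : V} {i j : Fin 3} {τ : PC F} {p q : V} {s t : Fin 3}
    (h : Inv σ a b i j τ p q s t) : Inv σ a b i j τ q p t s := by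
  refine ⟨h.min, h.unc.symm, h.hq, h.hp, ?_, ?_, ?_⟩
  · rcases h.hst with ⟨h1, h2⟩ | ⟨h1, h2⟩
    · exact Or.inr ⟨h2, h1⟩
    · exact Or.inl ⟨h2, h1⟩
  · intro x y h1 h2 h3
    obtain ⟨k1, k2, k3⟩ := h.other x y h1 h2 h3
    exact ⟨k1, k3, k2⟩
  · intro x y hxy hc
    rcases h.cyc x y hxy hc with h1 | h1 | h1 | h1
    · exact Or.inl h1
    · exact Or.inr (Or.inl h1)
    · exact Or.inr (Or.inr (Or.inr h1))
    · exact Or.inr (Or.inr (Or.inl h1))

theorem Inv.st_ne {σ : PC F} {a b : V} {i j : Fin 3} {τ : PC F} {p q : V} {s t : Fin 3}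
    (h : Inv σ a b i j τ p q s t) : s ≠ t := by
  rintro rfl
  exact add h.min h.unc h.hp h.hq

theorem Inv.sq_ne (hF : Cubic F) {σ : PC F} {a b : V} {i j : Fin 3} {τ : PC F} {p q : V}
    {s t : Fin 3} (h : Inv σ a b i j τ p q s t) : τ.s s q ≠ q := fun h' =>
  h.st_ne (miss_unique hF h.min h' h.hq)

omit [Fintype V] [DecidableEq V] in
theorem IsShift.unc_new {τ τ' : PC F} {p q : V} {s : Fin 3} (h : IsShift τ p q s τ')
    (hpq : p ≠ q) (hp : τ.s s p = p) (hq : τ.s s q ≠ q) : τ'.Unc q (τ.s s q) := by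
  refine ⟨τ.adj _ _ hq, fun c hc => ?_⟩
  obtain ⟨h0, h1, h2, h3, h4⟩ := h
  by_cases hcs : c = s
  · subst hcs
    rw [h2] at hc
    apply hpq
    rw [← hp, hc, τ.inv]
  · rw [h0 _ _ hcs] at hc
    by_cases hcq : τ.s c q = q
    · rw [hcq] at hc; exact hq hc.symm
    · exact τ.dj c s q hcs hcq hc

omit [Fintype V] [DecidableEq V] in
theorem IsShift.unc_old {τ τ' : PC F} {p q : V} {s : Fin 3} (h : IsShift τ p q s τ')
    {x y : V} (hu : τ.Unc x y) (h1' : ¬ (x = p ∧ y = q)) (h2' : ¬ (x = q ∧ y = p)) :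
    τ'.Unc x y := by
  refine ⟨hu.1, fun c hc => ?_⟩
  obtain ⟨h0, h1, h2, h3, h4⟩ := h
  by_cases hcs : c = s
  · subst hcs
    by_cases hxp : x = p
    · subst hxp; rw [h1] at hc; exact h1' ⟨rfl, hc.symm⟩
    by_cases hxq : x = q
    · subst hxq; rw [h2] at hc; exact h2' ⟨rfl, hc.symm⟩
    by_cases hxz : x = τ.s c q
    · subst hxz; rw [h3] at hc; exact hu.ne hc
    rw [h4 _ hxp hxq hxz] at hc
    exact hu.2 c hc
  · rw [h0 _ _ hcs] at hc
    exact hu.2 c hc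

theorem Inv.fwd (hF : Cubic F) {σ : PC F} {a b : V} {i j : Fin 3} {τ : PC F} {p q : V}
    {s t : Fin 3} (h : Inv σ a b i j τ p q s t) :
    ∃ τ' : PC F, IsShift τ p q s τ' ∧ Inv σ a b i j τ' q (τ.s s q) t s := by
  have hq := h.sq_ne hF
  have hst := h.st_ne
  have hpq := h.unc.ne
  obtain ⟨τ', hc, hsh⟩ := exists_shift τ h.unc h.hp hq
  refine ⟨τ', hsh, ?_⟩
  have hold := @IsShift.unc_old _ _ _ _ _ _ _ hsh
  have hnew := hsh.unc_new hpq h.hp hq
  obtain ⟨h0, h1, h2, h3, h4⟩ := hsh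
  have hz : τ.s s (τ.s s q) = q := τ.inv s q
  refine ⟨?_, hnew, ?_, h3, ?_, ?_, ?_⟩
  · intro ρ; rw [hc]; exact h.min ρ
  · rw [h0 _ _ hst.symm]; exact h.hq
  · rcases h.hst with ⟨k1, k2⟩ | ⟨k1, k2⟩
    · exact Or.inr ⟨k2, k1⟩
    · exact Or.inl ⟨k2, k1⟩
  · intro x y k1 k2 k3
    obtain ⟨m1, m2, m3⟩ := h.other x y k1 k2 k3
    refine ⟨hold m1 m2 m3, ?_, ?_⟩
    · rintro ⟨rfl, rfl⟩; exact m1.2 s rfl
    · rintro ⟨rfl, rfl⟩; exact m1.2 s hz
  · intro x y hxy hcy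
    have hstep : ∀ c, (c = i ∨ c = j) → τ.s c x = y →
        (τ'.s c x = y ∨ (x = q ∧ y = τ.s s q) ∨ (x = τ.s s q ∧ y = q)) := by
      intro c _ hcx
      by_cases hcs : c = s
      · subst hcs
        by_cases hxp : x = p
        · subst hxp; rw [h.hp] at hcx; exact absurd hcx hxy
        by_cases hxq : x = q
        · subst hxq; exact Or.inr (Or.inl ⟨rfl, hcx.symm⟩)
        by_cases hxz : x = τ.s c q
        · subst hxz; rw [hz] at hcx; exact Or.inr (Or.inr ⟨rfl, hcx.symm⟩)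
        left; rw [h4 _ hxp hxq hxz]; exact hcx
      · left; rw [h0 _ _ hcs]; exact hcx
    have hsij : s = i ∨ s = j := by
      rcases h.hst with ⟨k1, _⟩ | ⟨k1, _⟩
      · exact Or.inl k1
      · exact Or.inr k1
    have hfin : ∀ u v : V, τ'.s s u = v → (τ'.s i u = v ∨ τ'.s j u = v) := by
      intro u v huv
      rcases hsij with hs | hs
      · left; rw [← hs]; exact huv
      · right; rw [← hs]; exact huv
    rcases h.cyc x y hxy hcy with k | k | ⟨k1, k2⟩ | ⟨k1, k2⟩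
    · rcases hstep i (Or.inl rfl) k with m | m | m
      · exact Or.inl m
      · exact Or.inr (Or.inr (Or.inl m))
      · exact Or.inr (Or.inr (Or.inr m))
    · rcases hstep j (Or.inr rfl) k with m | m | m
      · exact Or.inr (Or.inl m)
      · exact Or.inr (Or.inr (Or.inl m))
      · exact Or.inr (Or.inr (Or.inr m))
    · subst k1; subst k2
      rcases hfin _ _ h1 with m | m
      · exact Or.inl m
      · exact Or.inr (Or.inl m)
    · subst k1; subst k2
      rcases hfin _ _ h2 with m | m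
      · exact Or.inl m
      · exact Or.inr (Or.inl m)

/-- Propagation of a property along the rotations. -/
theorem propagate (hF : Cubic F) {σ : PC F} (hσ : σ.IsMin) {a b : V} {i j : Fin 3}
    (hu : σ.Unc a b) (ha : σ.s i a = a) (hb : σ.s j b = b) (R : PC F → V → V → Prop)
    (hR0 : R σ a b) (hsym : ∀ τ p q, R τ p q → R τ q p)
    (hfwd : ∀ τ p q s t τ', Inv σ a b i j τ p q s t → R τ p q → IsShift τ p q s τ' →
      Inv σ a b i j τ' q (τ.s s q) t s → R τ' q (τ.s s q)) :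
    ∀ w, Tcl σ i j a b w → ∃ τ q s t, Inv σ a b i j τ w q s t ∧ R τ w q := by
  intro w hw
  refine hw (fun w => ∃ τ q s t, Inv σ a b i j τ w q s t ∧ R τ w q) ?_ ?_ ?_ ?_
  · exact ⟨σ, b, i, j, Inv.base hσ hu ha hb, hR0⟩
  · exact ⟨σ, a, j, i, (Inv.base hσ hu ha hb).rev, hsym _ _ _ hR0⟩
  all_goals
    rintro x ⟨τ, q, s, t, hI, hR⟩
    have main : ∀ y, x ≠ y → (σ.s i x = y ∨ σ.s j x = y) →
        ∃ τ q s t, Inv σ a b i j τ y q s t ∧ R τ y q := by
      intro y hxy hy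
      have hcy := hI.cyc x y hxy (by
        rcases hy with h | h
        · exact Or.inl h
        · exact Or.inr (Or.inl h))
      have hcase : y = q ∨ y = τ.s t x := by
        rcases hcy with k | k | ⟨_, k⟩ | ⟨k, _⟩
        · rcases hI.hst with ⟨k1, k2⟩ | ⟨k1, k2⟩
          · exfalso; rw [← k1, hI.hp] at k; exact hxy k
          · right; rw [k2]; exact k.symm
        · rcases hI.hst with ⟨k1, k2⟩ | ⟨k1, k2⟩
          · right; rw [k2]; exact k.symm
          · exfalso; rw [← k1, hI.hp] at k; exact hxy k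
        · exact Or.inl k
        · exact absurd k hI.unc.ne
      rcases hcase with rfl | rfl
      · exact ⟨τ, x, t, s, hI.rev, hsym _ _ _ hR⟩
      · obtain ⟨τ', hsh, hI'⟩ := hI.rev.fwd hF
        have hR' := hfwd τ q x t s τ' hI.rev (hsym _ _ _ hR) hsh hI'
        exact ⟨τ', x, t, s, hI'.rev, hsym _ _ _ hR'⟩
  · by_cases hx : x = σ.s i x
    · rw [← hx]; exact ⟨τ, q, s, t, hI, hR⟩
    · exact main _ hx (Or.inl rfl)
  · by_cases hx : x = σ.s j x
    · rw [← hx]; exact ⟨τ, q, s, t, hI, hR⟩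
    · exact main _ hx (Or.inr rfl)

/-- No other uncoloured edge touches the chain of an uncoloured edge. -/
theorem no_touch (hF : Cubic F) {σ : PC F} (hσ : σ.IsMin) {a b : V} {i j : Fin 3}
    (hu : σ.Unc a b) (ha : σ.s i a = a) (hb : σ.s j b = b) {w y : V} (hw : Tcl σ i j a b w)
    (hy : σ.Unc w y) : (w = a ∧ y = b) ∨ (w = b ∧ y = a) := by
  by_contra hcon
  rw [not_or] at hcon
  obtain ⟨τ, q, s, t, hI, -⟩ := propagate hF hσ hu ha hb (fun _ _ _ => True) trivial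
    (fun _ _ _ _ => trivial) (fun _ _ _ _ _ _ _ _ _ _ => trivial) w hw
  obtain ⟨k1, k2, _⟩ := hI.other w y hy hcon.1 hcon.2
  exact k2 ⟨rfl, unc_unique hF hI.min k1 hI.unc⟩

/-- The chains of two different uncoloured edges are disjoint. -/
theorem chains_disjoint (hF : Cubic F) {σ : PC F} (hσ : σ.IsMin) {a b a' b' : V}
    {i j i' j' : Fin 3} (hu : σ.Unc a b) (ha : σ.s i a = a) (hb : σ.s j b = b)
    (hu' : σ.Unc a' b') (ha' : σ.s i' a' = a') (hb' : σ.s j' b' = b')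
    (hne : ¬ (a' = a ∧ b' = b)) (hne' : ¬ (a' = b ∧ b' = a)) {w : V}
    (hw : Tcl σ i j a b w) : ¬ Tcl σ i' j' a' b' w := by
  intro hw'
  have key := propagate hF hσ hu' ha' hb'
    (fun τ p q => ¬ Tcl σ i j a b p ∧ ¬ Tcl σ i j a b q ∧
      (∀ x, Tcl σ i j a b x → τ.s i x = σ.s i x ∧ τ.s j x = σ.s j x) ∧ τ.Unc a b)
    ?_ ?_ ?_ w hw'
  · obtain ⟨_, _, _, _, _, h, _⟩ := key
    exact h hw
  · refine ⟨fun h => ?_, fun h => ?_, fun x _ => ⟨rfl, rfl⟩, hu⟩
    · rcases no_touch hF hσ hu ha hb h hu' with k | k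
      · exact hne k
      · exact hne' k
    · rcases no_touch hF hσ hu ha hb h hu'.symm with ⟨k1, k2⟩ | ⟨k1, k2⟩
      · exact hne' ⟨k2, k1⟩
      · exact hne ⟨k2, k1⟩
  · rintro τ p q ⟨h1, h2, h3, h4⟩
    exact ⟨h2, h1, h3, h4⟩
  · rintro τ p q s t τ' hI ⟨hp, hq, hag, huab⟩ hsh hI'
    set z := τ.s s q with hzdef
    have hz : τ.s s z = q := by rw [hzdef, τ.inv]
    have hu1 : τ'.Unc a b := by
      apply hsh.unc_old huab
      · rintro ⟨rfl, _⟩; exact hp (Tcl.left _ _ _ _ _)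
      · rintro ⟨rfl, _⟩; exact hq (Tcl.left _ _ _ _ _)
    have hzT : ¬ Tcl σ i j a b z := by
      intro hzT
      have hsi : s ≠ i := by
        rintro rfl
        apply hq
        rw [← hz, (hag z hzT).1]
        exact hzT.si
      have hsj : s ≠ j := by
        rintro rfl
        apply hq
        rw [← hz, (hag z hzT).2]
        exact hzT.sj
      have hi : ∀ x, τ'.s i x = τ.s i x := fun x => hsh.1 _ _ (Ne.symm hsi)
      have hj : ∀ x, τ'.s j x = τ.s j x := fun x => hsh.1 _ _ (Ne.symm hsj)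
      have hT' : Tcl τ' i j a b z := by
        have := hzT (fun x => Tcl σ i j a b x ∧ Tcl τ' i j a b x)
          ⟨Tcl.left _ _ _ _ _, Tcl.left _ _ _ _ _⟩ ⟨Tcl.right _ _ _ _ _, Tcl.right _ _ _ _ _⟩
          (fun x hx => ⟨hx.1.si, by rw [← (hag x hx.1).1, ← hi]; exact hx.2.si⟩)
          (fun x hx => ⟨hx.1.sj, by rw [← (hag x hx.1).2, ← hj]; exact hx.2.sj⟩)
        exact this.2
      have ha1 : τ'.s i a = a := by rw [hi, (hag a (Tcl.left _ _ _ _ _)).1, ha]
      have hb1 : τ'.s j b = b := by rw [hj, (hag b (Tcl.right _ _ _ _ _)).2, hb]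
      rcases no_touch hF hI'.min hu1 ha1 hb1 hT' hI'.unc.symm with ⟨_, k⟩ | ⟨_, k⟩
      · exact hq (by rw [k]; exact Tcl.right _ _ _ _ _)
      · exact hq (by rw [k]; exact Tcl.left _ _ _ _ _)
    refine ⟨hq, hzT, ?_, hu1⟩
    intro x hx
    have e1 : x ≠ p := by rintro rfl; exact hp hx
    have e2 : x ≠ q := by rintro rfl; exact hq hx
    have e3 : x ≠ z := by rintro rfl; exact hzT hx
    have hall : ∀ c, τ'.s c x = τ.s c x := by
      intro c
      by_cases hcs : c = s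
      · subst hcs; exact hsh.2.2.2.2 x e1 e2 e3
      · exact hsh.1 _ _ hcs
    rw [hall, hall]
    exact hag x hx

end PC

end Pool.Agent.Work.MP_f3c9f4_co
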